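import Pool.Agent.Helper14.GS.StD

/-!
# Project GS, module D5
-/

set_option autoImplicit false

namespace Pool.Agent.Helper90.GS

open Pool.Agent.Helper14.GS Pool.Agent.Helper10.EP Polynomial Finset

theorem D5 (h3 : StD3) (h4 : StD4) : StD5 := by
  classical
  intro ι _ _ N L₀ S T h ω x hN hL₀ hh hT hNS hc1 hc2 hω hx hx0
  -- the vectors
  let J : Type := {y : ℕ × ℕ × ℕ // y.1 < S ∧ y.2.1 + y.2.2 < T}
  let v : J → (Fin L₀ × ι → ℝ) := fun y c =>
    (hasseDeriv y.1.2.1 (felP h c.1)).eval (y.1.1 : ℝ) * ω c.2 ^ y.1.2.2 * x c.2 ^ y.1.1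
  have hspan : Submodule.span ℝ (Set.range v) = ⊤ := by
    by_contra hne
    obtain ⟨φ, hφ, hφ0⟩ := Submodule.exists_le_ker_of_lt_top _ (lt_top_iff_ne_top.2 hne)
    apply hφ
    -- coefficients of the functional
    let a : Fin L₀ × ι → ℝ := fun i => φ (Pi.single i 1)
    have hφa : ∀ w : Fin L₀ × ι → ℝ, φ w = ∑ i, a i * w i := by
      intro w
      have h1 : w = ∑ i, w i • (Pi.single i (1 : ℝ) : Fin L₀ × ι → ℝ) := by
        funext j
        simp [Finset.sum_apply, Pi.single_apply]
      conv_lhs => rw [h1]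
      rw [map_sum]
      refine Finset.sum_congr rfl fun i _ => ?_
      rw [map_smul, smul_eq_mul, mul_comm]
    let Q : ι → ℝ[X] := fun l => ∑ k : Fin L₀, a (k, l) • felP h k
    have hQdeg : ∀ l, (Q l).natDegree < L₀ := by
      intro l
      have : (Q l).natDegree ≤ L₀ - 1 := by
        refine natDegree_sum_le_of_forall_le _ _ fun k _ => ?_
        refine (natDegree_smul_le _ _).trans ?_
        rw [(h3 h k hh).1]
        have := k.2
        omega
      omega
    have hQ : ∀ l, Q l = 0 := by
      refine h4 ι N L₀ S T ω x Q hN hT hNS hc1 hc2 hω hx hx0 hQdeg ?_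
      intro s t₀ t₁ hs ht
      have h1 : φ (v ⟨(s, t₀, t₁), hs, ht⟩) = 0 :=
        hφ0 (Submodule.subset_span ⟨_, rfl⟩)
      rw [hφa, Fintype.sum_prod_type_right] at h1
      rw [← h1]
      refine Finset.sum_congr rfl fun l _ => ?_
      simp only [Q, map_sum, map_smul, eval_finsetSum, eval_smul, v, Finset.sum_mul, smul_eq_mul]
      refine Finset.sum_congr rfl fun k _ => ?_
      ring
    have ha : ∀ i, a i = 0 := by
      rintro ⟨k, l⟩
      by_contra hk
      let A : Finset (Fin L₀) := Finset.univ.filter fun c => a (c, l) ≠ 0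
      have hA : A.Nonempty := ⟨k, Finset.mem_filter.2 ⟨Finset.mem_univ _, hk⟩⟩
      let c0 := A.max' hA
      have hc0 : a (c0, l) ≠ 0 := (Finset.mem_filter.1 (A.max'_mem hA)).2
      have h1 := congrArg (fun p => p.coeff (c0 : ℕ)) (hQ l)
      simp only [Q, finsetSum_coeff, coeff_smul, coeff_zero, smul_eq_mul] at h1
      rw [Finset.sum_eq_single c0] at h1
      · have h2 : (felP h (c0 : ℕ)).coeff (c0 : ℕ) ≠ 0 := by
          have h5 := (h3 h c0 hh).1
          have h6 : (felP h (c0 : ℕ)).coeff (c0 : ℕ) = (felP h (c0 : ℕ)).leadingCoeff := by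
            unfold Polynomial.leadingCoeff
            rw [h5]
          rw [h6]
          exact leadingCoeff_ne_zero.2 (h3 h c0 hh).2
        exact mul_ne_zero hc0 h2 h1
      · intro c _ hne'
        by_cases hca : a (c, l) = 0
        · rw [hca, zero_mul]
        · have hcA : c ∈ A := Finset.mem_filter.2 ⟨Finset.mem_univ _, hca⟩
          have hlt : c < c0 := lt_of_le_of_ne (A.le_max' c hcA) hne'
          rw [coeff_eq_zero_of_natDegree_lt, mul_zero]
          rw [(h3 h c hh).1]
          exact hlt
      · intro hcon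
        exact absurd (Finset.mem_univ _) hcon
    ext i
    simp [a] at ha
    simpa using ha i.1 i.2
  -- choose a basis among the vectors
  obtain ⟨κ, e, he, hκspan, hκ⟩ := exists_linearIndependent' ℝ v
  rw [hspan] at hκspan
  let B := Module.Basis.mk hκ hκspan.ge
  have : Finite κ := Module.Finite.finite_basis B
  have : Fintype κ := Fintype.ofFinite κ
  have hcard : Fintype.card κ = Fintype.card (Fin L₀ × ι) := by
    rw [← Module.finrank_eq_card_basis B, Module.finrank_fintype_fun_eq_card]
  let g : Fin L₀ × ι ≃ κ := (Fintype.equivOfCardEq hcard).symm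
  refine ⟨fun i => (e (g i)).1, fun i => (e (g i)).2, ?_⟩
  have hind : LinearIndependent ℝ (fun i => v (e (g i))) := hκ.comp g g.injective
  have hunit : IsUnit (Matrix.of fun i => v (e (g i))) :=
    Matrix.linearIndependent_rows_iff_isUnit.1 hind
  have hdet : (Matrix.of fun i => v (e (g i))).det ≠ 0 := by
    rw [Matrix.isUnit_iff_isUnit_det] at hunit
    exact hunit.ne_zero
  exact hdet

end Pool.Agent.Helper90.GS
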