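import Pool.Agent.Helper14.GS.StD

/-!
# Project GS, module D9
-/

set_option autoImplicit false

namespace Pool.Agent.Helper90.GS

open Pool.Agent.Helper14.GS Pool.Agent.Helper10.EP Finset

theorem D9 (h8 : StD8) : StD9 := by
  intro ι _ _ T K f v γ e E Y hf hT hE hY
  obtain ⟨Ψ, hΨ, hfac⟩ := h8 ι T K f v γ e hf hT
  set m := T * (K * (K - 1) / 2) with hm
  have hE0 : 0 < E := lt_of_lt_of_le one_pos hE
  have hbound : ∀ x : ℂ, ‖x‖ ≤ E → ‖(Matrix.of fun ρ c : ι =>
      (∑ a, ∑ j, γ ρ a j * iteratedDeriv (j : ℕ) (f a c) (x * v ρ)) + x ^ K * e ρ c).det‖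
      ≤ (Fintype.card ι).factorial * Y ^ (Fintype.card ι) := by
    intro x hx
    have := Matrix.det_le (A := Matrix.of fun ρ c : ι =>
        (∑ a, ∑ j, γ ρ a j * iteratedDeriv (j : ℕ) (f a c) (x * v ρ)) + x ^ K * e ρ c)
      (abv := NormedField.toAbsoluteValue ℂ) (x := Y) (by
        intro ρ c
        show ‖(∑ a, ∑ j, γ ρ a j * iteratedDeriv (j : ℕ) (f a c) (x * v ρ)) + x ^ K * e ρ c‖ ≤ Y
        exact hY x hx ρ c)
    rw [nsmul_eq_mul] at this
    exact this
  have h1 : (Matrix.of fun ρ c : ι =>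
      (∑ a, ∑ j, γ ρ a j * iteratedDeriv (j : ℕ) (f a c) (v ρ)) + e ρ c).det = Ψ 1 := by
    have := hfac 1
    simpa using this
  rw [h1]
  refine Complex.norm_le_of_forall_mem_frontier_norm_le (U := Metric.ball (0 : ℂ) E)
    Metric.isBounded_ball hΨ.diffContOnCl ?_ ?_
  · intro z hz
    rw [frontier_ball (0 : ℂ) hE0.ne'] at hz
    have hz' : ‖z‖ = E := by simpa using hz
    rw [le_div_iff₀ (pow_pos hE0 _), mul_comm]
    have h2 := hbound z hz'.le
    rw [hfac z, norm_mul, norm_pow, hz'] at h2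
    exact h2
  · rw [closure_ball (0 : ℂ) hE0.ne']
    simpa using hE

end Pool.Agent.Helper90.GS
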